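import Pool.Agent.MP_3a4337_ag.Gor

/-!
A fixed ideal of an F-finite Gorenstein domain which is not a trace ideal.

The ring is `R = F_3[x, y] / (y^3 - x^2 y - x^4)` (a plane curve with an ordinary triple point at the
origin), the ideal is `I = (x, y^2)`.
-/

set_option autoImplicit false

namespace Pool.Agent.Results.MP_3a4337_ag.FixedNotTrace

open Pool.Agent.MP3a4337

universe u

/-- There are an F-finite Gorenstein domain `R` of characteristic `3` and a fixed ideal `I` of `R`
which is not the trace ideal of any finite extension `R → S`. -/
theorem result :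
    ∃ (R : Type) (_ : CommRing R) (_ : IsDomain R) (_ : CharP R 3),
      IsGorensteinRing R ∧ (frobenius R 3).Finite ∧
      ∃ I : Ideal R, IsFixedIdeal 3 R I ∧
        ∀ (S : Type u) [CommRing S] [Algebra R S] [Module.Finite R S], I ≠ traceIdeal R S :=
  ⟨TR, inferInstance, inferInstance, inferInstance, TR_gorenstein, frob_finite, I0, I0_fixed,
    fun S _ _ _ => (not_trace S).symm⟩

end Pool.Agent.Results.MP_3a4337_ag.FixedNotTrace
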